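import Pool.Agent.Helper73.FSB.Bridge

set_option autoImplicit false

/-!
# Three-machine flow shop is fixed-parameter tractable in the maximum processing time

The definitions are in `Pool.Agent.Helper73.FSB.Defs`: `encode n p L` is the binary code of the
instance with the bound `L`, `pMax n p` the largest processing time, `IsSchedule` a schedule with
real start times, `IsLooseSchedule` the weaker reading in which operations of length `0` occupy no
time.
-/

namespace Pool.Agent.Results.MP_569b45_lc.FlowShopFPT

open Pool.Agent.Helper73.FSB

/-- There are a computable function `f` and one multi-stack Turing machine over the alphabet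
`{0, 1}` that, started with the binary code of an instance and of a bound `L`, halts after at most
`f (p_max) |I| ^ 2` steps with the output `1` if there is a schedule with makespan at most `L`, and
`0` otherwise. If all operations on the second machine have positive length, the answer is also the
right one for the weaker notion of a schedule. -/
theorem result :
    ∃ f : ℕ → ℕ, Computable f ∧ ∃ M : Turing.FinTM2,
      ∃ e₀ : M.Γ M.k₀ ≃ Bool, ∃ e₁ : M.Γ M.k₁ ≃ Bool,
      ∀ (n : ℕ) (p : Fin n → Fin 3 → ℕ) (L : ℕ), ∃ b : Bool,
        (b = true ↔ ∃ s, IsSchedule n p s ∧ MakespanLE n p s L) ∧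
        ((∀ j, 0 < p j 1) → (b = true ↔ ∃ s, IsLooseSchedule n p s ∧ MakespanLE n p s L)) ∧
        Nonempty (Turing.TM2OutputsInTime M ((encode n p L).map e₀.symm) (some [e₁.symm b])
          (f (pMax n p) * (encode n p L).length ^ 2)) := by
  obtain ⟨f, hf, M, e₀, e₁, h⟩ := main2
  refine ⟨f, hf, M, e₀, e₁, fun n p L => ?_⟩
  obtain ⟨b, h1, h2⟩ := h n p L (encode n p L) (encode_eq n p L)
  refine ⟨b, h1.trans (real_iff n p L), fun hp => ?_, h2⟩
  exact (h1.trans (real_iff n p L)).trans (loose_iff n p L hp)

end Pool.Agent.Results.MP_569b45_lc.FlowShopFPT
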